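import Pool.Agent.H341R2.TwoSided
import Pool.Agent.H341R2.TwistBessel

set_option autoImplicit false

namespace Pool.Agent.H68T

open Complex Filter Topology ComplexConjugate Polynomial
open Pool.Agent.H341R2

variable {d : ℕ}

/-- The Euler product `∏_{p ∉ S, p ∤ N} det(1 - χ(p) p^{-s} A_p)⁻¹`: the partial L-function of the
family `(A_p)` of `d × d` matrices, twisted by the Dirichlet character `χ` modulo `N`. -/
noncomputable def twistedL (A : Nat.Primes → Matrix (Fin d) (Fin d) ℂ) (S : Finset Nat.Primes)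
    {N : ℕ} (χ : DirichletCharacter ℂ N) (s : ℂ) : ℂ :=
  open Classical in
  ∏' p : Nat.Primes, if p ∈ S ∨ (p : ℕ) ∣ N then 1 else
    ((1 : Matrix (Fin d) (Fin d) ℂ) - (χ p * ((p : ℕ) : ℂ) ^ (-s)) • A p).det⁻¹

theorem card_roots (M : Matrix (Fin d) (Fin d) ℂ) : Multiset.card M.charpoly.roots = d := by
  rw [← (IsAlgClosed.splits M.charpoly).natDegree_eq_card_roots,
    Matrix.charpoly_natDegree_eq_dim, Fintype.card_fin]

theorem det_one_sub (M : Matrix (Fin d) (Fin d) ℂ) (z : ℂ) :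
    ((1 : Matrix (Fin d) (Fin d) ℂ) - z • M).det =
      (M.charpoly.roots.map fun β => 1 - z * β).prod := by
  by_cases hz : z = 0
  · subst hz; simp
  · have h1 : ((1 : Matrix (Fin d) (Fin d) ℂ) - z • M) = z • (Matrix.scalar (Fin d) z⁻¹ - M) := by
      rw [smul_sub]
      congr 1
      ext i j
      by_cases hij : i = j
      · subst hij; simp [hz]
      · simp [Matrix.scalar_apply, Matrix.diagonal_apply_ne _ hij, Matrix.one_apply_ne hij]
    have hsp : M.charpoly = (M.charpoly.roots.map fun a => X - C a).prod :=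
      (IsAlgClosed.splits M.charpoly).eq_prod_roots_of_monic (Matrix.charpoly_monic M)
    rw [h1, Matrix.det_smul, ← Matrix.eval_charpoly, Fintype.card_fin]
    conv_lhs => rw [hsp]
    rw [Polynomial.eval_multiset_prod, Multiset.map_map]
    have h2 : z ^ d = (M.charpoly.roots.map fun _ => z).prod := by
      rw [Multiset.map_const', Multiset.prod_replicate, card_roots]
    rw [h2, ← Multiset.prod_map_mul]
    congr 1
    refine Multiset.map_congr rfl fun β _ => ?_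
    simp only [Function.comp_apply, eval_sub, eval_X, eval_C]
    field_simp


theorem norm_trace_le {M : Matrix (Fin d) (Fin d) ℂ} {r : ℝ}
    (h : ∀ β ∈ M.charpoly.roots, ‖β‖ ≤ r) : ‖M.trace‖ ≤ d * r := by
  rw [Matrix.trace_eq_sum_roots_charpoly_of_splits (IsAlgClosed.splits _)]
  calc ‖M.charpoly.roots.sum‖ ≤ (M.charpoly.roots.map norm).sum := norm_multiset_sum_le _
    _ ≤ (M.charpoly.roots.map fun _ => r).sum := Multiset.sum_map_le_sum_map _ _ h
    _ = d * r := by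
      rw [Multiset.map_const', Multiset.sum_replicate, card_roots, nsmul_eq_mul]

open Classical in
/-- normalized trace of the matrix at `p`, zero for `p ∈ S` -/
noncomputable def tt (A : Nat.Primes → Matrix (Fin d) (Fin d) ℂ) (S : Finset Nat.Primes) (θ : ℝ)
    (p : Nat.Primes) : ℂ :=
  if p ∈ S then 0 else (A p).trace * (((p : ℝ) ^ (-θ) : ℝ) : ℂ)

/-- the function `p ↦ conj χ(p) p^{iτ}` -/
noncomputable def v {N : ℕ} (k : DirichletCharacter ℂ N × ℝ) (p : Nat.Primes) : ℂ :=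
  conj (k.1 p) * ((p : ℕ) : ℂ) ^ (k.2 * I)

theorem norm_v_le {N : ℕ} (k : DirichletCharacter ℂ N × ℝ) (p : Nat.Primes) : ‖v k p‖ ≤ 1 := by
  rw [v, norm_mul, norm_prime_cpow_I, mul_one, Complex.norm_conj]
  exact k.1.norm_le_one _

theorem norm_tt_le {A : Nat.Primes → Matrix (Fin d) (Fin d) ℂ} {S : Finset Nat.Primes} {θ : ℝ}
    (hA : ∀ p ∉ S, ∀ β ∈ (A p).charpoly.roots, ‖β‖ ≤ (p : ℝ) ^ θ) (p : Nat.Primes) :
    ‖tt A S θ p‖ ≤ d := by
  classical
  have hp0 : (0 : ℝ) < p := by exact_mod_cast p.2.pos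
  rw [tt]
  split_ifs with h
  · simp
  · rw [norm_mul, Complex.norm_real, Real.norm_eq_abs, abs_of_pos (Real.rpow_pos_of_pos hp0 _)]
    calc ‖(A p).trace‖ * (p : ℝ) ^ (-θ) ≤ (d * (p : ℝ) ^ θ) * (p : ℝ) ^ (-θ) :=
          mul_le_mul_of_nonneg_right (norm_trace_le (hA p h)) (by positivity)
      _ = d := by rw [mul_assoc, ← Real.rpow_add hp0, add_neg_cancel, Real.rpow_zero, mul_one]

theorem v_orth {N : ℕ} [NeZero N] {k l : DirichletCharacter ℂ N × ℝ} (hkl : k ≠ l) :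
    ∃ C : ℝ, ∀ᶠ ε : ℝ in 𝓝[>] 0, |E ε fun p => (v k p * conj (v l p)).re| ≤ C := by
  have h : k.1⁻¹ * l.1 ≠ 1 ∨ (l.2 - k.2) ≠ 0 := by
    by_cases h1 : k.1 = l.1
    · right
      intro h2
      exact hkl (Prod.ext h1 (by linarith))
    · left
      intro h2
      exact h1 (inv_mul_eq_one.1 h2)
  obtain ⟨C, hC⟩ := primeSum_bounded (k.1⁻¹ * l.1) (l.2 - k.2) h
  refine ⟨C, ?_⟩
  filter_upwards [hC, self_mem_nhdsWithin] with ε h1 h2
  have hε : (0 : ℝ) < ε := h2
  convert h1 using 2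
  rw [E, Complex.re_tsum]
  · refine tsum_congr fun p => ?_
    have h0 : ((p : ℕ) : ℂ) ≠ 0 := by exact_mod_cast p.2.ne_zero
    have h3 : v k p * conj (v l p) = (k.1⁻¹ * l.1) p *
        ((p : ℕ) : ℂ) ^ (-(((l.2 - k.2 : ℝ) : ℂ) * I)) := by
      have h5 : conj (k.1 p) = k.1⁻¹ p := MulChar.star_apply' k.1 _
      rw [v, v, map_mul, Complex.conj_conj, conj_prime_cpow_I, MulChar.mul_apply, h5]
      push_cast
      have : -(((l.2 : ℂ) - k.2) * I) = k.2 * I + -(l.2 * I) := by ring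
      rw [this, Complex.cpow_add _ _ h0]
      ring
    have h4 : ((p : ℕ) : ℂ) ^ (-(1 + ε + ((l.2 - k.2 : ℝ) : ℂ) * I) : ℂ) =
        ((p : ℕ) : ℂ) ^ (-(((l.2 - k.2 : ℝ) : ℂ) * I)) * (((p : ℝ) ^ (-(1 + ε)) : ℝ) : ℂ) := by
      rw [Complex.ofReal_cpow (by positivity)]
      push_cast
      rw [← Complex.cpow_add _ _ h0]
      congr 1
      ring
    rw [h3, h4, ← mul_assoc, Complex.re_mul_ofReal]
  · refine Summable.of_norm_bounded (summable_prime_rpow (r := -(1 + ε)) (by linarith)) fun p => ?_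
    rw [norm_mul, norm_prime_cpow]
    refine mul_le_of_le_one_left (by positivity) ?_ |>.trans (le_of_eq ?_)
    · exact (k.1⁻¹ * l.1).norm_le_one _
    · congr 1
      simp

/-- logarithm of the local factor -/
noncomputable def logF (M : Matrix (Fin d) (Fin d) ℂ) (z : ℂ) : ℂ :=
  (M.charpoly.roots.map fun β => -Complex.log (1 - z * β)).sum

theorem exp_logF {M : Matrix (Fin d) (Fin d) ℂ} {z : ℂ}
    (h : ∀ β ∈ M.charpoly.roots, ‖z * β‖ ≤ 1 / 2) :
    Complex.exp (logF M z) = ((1 : Matrix (Fin d) (Fin d) ℂ) - z • M).det⁻¹ := by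
  rw [logF, Complex.exp_multiset_sum, Multiset.map_map, det_one_sub, ← Multiset.prod_map_inv]
  congr 1
  refine Multiset.map_congr rfl fun β hβ => ?_
  have h1 := h β hβ
  have h3 : (1 - z * β) ≠ 0 := by
    intro h
    have h4 : z * β = 1 := by linear_combination -h
    rw [h4, norm_one] at h1
    norm_num at h1
  simp only [Function.comp_apply]
  rw [Complex.exp_neg, Complex.exp_log h3]

theorem logF_sub_le {M : Matrix (Fin d) (Fin d) ℂ} {z : ℂ} {r : ℝ} (hr : r ≤ 1 / 2)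
    (h : ∀ β ∈ M.charpoly.roots, ‖z * β‖ ≤ r) : ‖logF M z - z * M.trace‖ ≤ d * r ^ 2 := by
  have hz : z * M.charpoly.roots.sum = (M.charpoly.roots.map fun β => z * β).sum := by
    rw [Multiset.sum_map_mul_left, Multiset.map_id']
  rw [Matrix.trace_eq_sum_roots_charpoly_of_splits (IsAlgClosed.splits _), logF, hz,
    ← Multiset.sum_map_sub]
  calc ‖(M.charpoly.roots.map fun β => -Complex.log (1 - z * β) - z * β).sum‖
      ≤ ((M.charpoly.roots.map fun β => -Complex.log (1 - z * β) - z * β).map norm).sum :=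
        norm_multiset_sum_le _
    _ ≤ (M.charpoly.roots.map fun _ => r ^ 2).sum := by
        rw [Multiset.map_map]
        refine Multiset.sum_map_le_sum_map _ _ fun β hβ => ?_
        have h1 := h β hβ
        simp only [Function.comp_apply]
        refine (norm_neg_log_sub_le (h1.trans hr)).trans ?_
        gcongr
    _ = d * r ^ 2 := by
      rw [Multiset.map_const', Multiset.sum_replicate, card_roots, nsmul_eq_mul]


theorem twist_order {A : Nat.Primes → Matrix (Fin d) (Fin d) ℂ} {S : Finset Nat.Primes} {θ : ℝ}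
    (hA : ∀ p ∉ S, ∀ β ∈ (A p).charpoly.roots, ‖β‖ ≤ (p : ℝ) ^ θ) {N : ℕ} [NeZero N]
    (k : DirichletCharacter ℂ N × ℝ) {Λ : ℂ → ℂ}
    (hΛ : MeromorphicAt Λ (1 + θ + k.2 * I))
    (hΛL : ∀ᶠ s in 𝓝 (1 + θ + k.2 * I : ℂ), 1 + θ < s.re → Λ s = twistedL A S k.1 s) :
    ∃ m : ℤ, meromorphicOrderAt Λ (1 + θ + k.2 * I) = m ∧
      ∃ C' : ℝ, ∀ᶠ ε : ℝ in 𝓝[>] 0,
        |(E ε fun p => (tt A S θ p * conj (v k p)).re) + m * lam ε| ≤ C' := by
  classical
  have hfin : {p : Nat.Primes | ¬ (p ∉ S ∧ ¬ (p : ℕ) ∣ N)}.Finite := by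
    have h1 : {p : Nat.Primes | (p : ℕ) ∣ N}.Finite := by
      refine Set.Finite.of_finite_image (f := fun p : Nat.Primes => (p : ℕ)) ?_
        (Subtype.val_injective.injOn)
      refine (Set.finite_Iic N).subset ?_
      rintro _ ⟨p, hp, rfl⟩
      exact Nat.le_of_dvd (Nat.pos_of_ne_zero (NeZero.ne N)) hp
    refine (S.finite_toSet.union h1).subset fun p hp => ?_
    simp only [Set.mem_ofPred_eq, not_and_or, not_not] at hp
    exact hp
  have hgood : ∀ p : Nat.Primes, ¬ (p ∉ S ∧ ¬ (p : ℕ) ∣ N) → tt A S θ p * conj (v k p) = 0 := by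
    intro p hp
    rw [not_and_or, not_not, not_not] at hp
    rcases hp with hp | hp
    · rw [tt, if_pos hp, zero_mul]
    · have : k.1 (p : ℕ) = 0 := by
        apply MulChar.map_nonunit
        rw [ZMod.isUnit_iff_coprime]
        intro h
        exact p.2.one_lt.ne' (Nat.Coprime.eq_one_of_dvd h hp)
      rw [v, this]
      simp
  have hbound : ∀ (p : Nat.Primes), p ∉ S → ∀ s : ℂ, 1 + θ ≤ s.re →
      ∀ β ∈ (A p).charpoly.roots, ‖(k.1 p * ((p : ℕ) : ℂ) ^ (-s)) * β‖ ≤ (p : ℝ) ^ (-1 : ℝ) := by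
    intro p hp s hs β hβ
    have hp0 : (0 : ℝ) < p := by exact_mod_cast p.2.pos
    have hp1 : (1 : ℝ) ≤ p := by exact_mod_cast p.2.one_lt.le
    rw [norm_mul, norm_mul, norm_prime_cpow]
    calc ‖k.1 p‖ * (p : ℝ) ^ (-s.re) * ‖β‖ ≤ 1 * (p : ℝ) ^ (-s.re) * (p : ℝ) ^ θ := by
          gcongr
          · exact k.1.norm_le_one _
          · exact hA p hp β hβ
      _ = (p : ℝ) ^ (-s.re + θ) := by rw [one_mul, ← Real.rpow_add hp0]
      _ ≤ (p : ℝ) ^ (-1 : ℝ) := Real.rpow_le_rpow_of_exponent_le hp1 (by linarith)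
  refine two_sided (Good := fun p => p ∉ S ∧ ¬ (p : ℕ) ∣ N) hfin (fun _ => 1) _
    (fun p hp => by simp)
    (fun p => tt A S θ p * conj (v k p)) (K := d)
    (fun p => ?_) hgood
    (fun ε p => logF (A p) (k.1 p * ((p : ℕ) : ℂ) ^ (-((1 + θ + k.2 * I : ℂ) + ε)))) (C := d)
    (fun ε hε p hp => ?_) hΛ ?_
  · rw [norm_mul, Complex.norm_conj]
    calc ‖tt A S θ p‖ * ‖v k p‖ ≤ d * 1 :=
          mul_le_mul (norm_tt_le hA p) (norm_v_le k p) (norm_nonneg _) (by positivity)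
      _ = d := mul_one _
  · have hp0 : (0 : ℝ) < p := by exact_mod_cast p.2.pos
    have hpc : ((p : ℕ) : ℂ) ≠ 0 := by exact_mod_cast p.2.ne_zero
    have hsre : 1 + θ ≤ ((1 + θ + k.2 * I : ℂ) + ε).re := by
      simp
      linarith
    have h1 : tt A S θ p * conj (v k p) * (((p : ℝ) ^ (-(1 + ε)) : ℝ) : ℂ) =
        (k.1 p * ((p : ℕ) : ℂ) ^ (-((1 + θ + k.2 * I : ℂ) + ε))) * (A p).trace := by
      have h2 : ((p : ℕ) : ℂ) ^ (-((1 + θ + k.2 * I : ℂ) + ε)) =
          (((p : ℝ) ^ (-θ) : ℝ) : ℂ) * (((p : ℕ) : ℂ) ^ (-(k.2 * I))) *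
            ((p : ℝ) ^ (-(1 + ε)) : ℝ) := by
        rw [Complex.ofReal_cpow hp0.le, Complex.ofReal_cpow hp0.le]
        push_cast
        rw [← Complex.cpow_add _ _ hpc, ← Complex.cpow_add _ _ hpc]
        congr 1
        ring
      rw [tt, if_neg hp.1, v, map_mul, Complex.conj_conj, conj_prime_cpow_I, h2]
      ring
    rw [h1]
    refine (logF_sub_le (prime_rpow_le_two (p := p) (r := 1) le_rfl)
      (hbound p hp.1 _ hsre)).trans (le_of_eq ?_)
    congr 1
    rw [← Real.rpow_natCast, ← Real.rpow_mul hp0.le]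
    norm_num
  · filter_upwards [(path_tendsto' _).eventually hΛL, self_mem_nhdsWithin] with ε h1 h2
    have hε : (0 : ℝ) < ε := h2
    have hre : 1 + θ < ((1 + θ + k.2 * I : ℂ) + ε).re := by simp [hε]
    rw [h1 hre, twistedL]
    refine tprod_congr fun p => ?_
    by_cases hp : p ∈ S ∨ (p : ℕ) ∣ N
    · rw [if_pos hp, if_neg (by tauto)]
      simp
    · rw [if_neg hp, if_pos (by tauto), exp_logF]
      intro β hβ
      exact (hbound p (by tauto) _ hre.le β hβ).trans (prime_rpow_le_two (p := p) (r := 1) le_rfl)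

/-- Bessel's inequality for the edge orders of all twists. -/
theorem twist_main {A : Nat.Primes → Matrix (Fin d) (Fin d) ℂ} {S : Finset Nat.Primes} {θ : ℝ}
    (hA : ∀ p ∉ S, ∀ β ∈ (A p).charpoly.roots, ‖β‖ ≤ (p : ℝ) ^ θ) {N : ℕ} [NeZero N]
    (K : Finset (DirichletCharacter ℂ N × ℝ)) (Λ : DirichletCharacter ℂ N × ℝ → ℂ → ℂ)
    (hΛ : ∀ k ∈ K, MeromorphicAt (Λ k) (1 + θ + k.2 * I))
    (hΛL : ∀ k ∈ K, ∀ᶠ s in 𝓝 (1 + θ + k.2 * I : ℂ), 1 + θ < s.re →
      Λ k s = twistedL A S k.1 s) :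
    ∃ m : DirichletCharacter ℂ N × ℝ → ℤ,
      (∀ k ∈ K, meromorphicOrderAt (Λ k) (1 + θ + k.2 * I) = m k) ∧
      ∑ k ∈ K, (m k) ^ 2 ≤ (d : ℤ) ^ 2 := by
  classical
  have h : ∀ k : DirichletCharacter ℂ N × ℝ, ∃ m : ℤ, k ∈ K →
      meromorphicOrderAt (Λ k) (1 + θ + k.2 * I) = m ∧
      ∃ C' : ℝ, ∀ᶠ ε : ℝ in 𝓝[>] 0,
        |(E ε fun p => (tt A S θ p * conj (v k p)).re) + m * lam ε| ≤ C' := by
    intro k
    by_cases hk : k ∈ K
    · obtain ⟨m, hm⟩ := twist_order hA k (hΛ k hk) (hΛL k hk)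
      exact ⟨m, fun _ => hm⟩
    · exact ⟨0, fun h => absurd h hk⟩
  choose m hm using h
  refine ⟨m, fun k hk => (hm k hk).1, ?_⟩
  have h1 := bessel K (tt A S θ) v (fun k => (m k : ℝ)) d (norm_tt_le hA) norm_v_le
    (fun k _ l _ hkl => v_orth hkl) (by
      intro k hk
      obtain ⟨C, hC⟩ := (hm k hk).2
      refine ⟨|(m k : ℝ)| * C, ?_⟩
      filter_upwards [hC] with ε hε
      have h1 : (m k : ℝ) * (E ε fun p => (tt A S θ p * conj (v k p)).re) +
          (m k : ℝ) ^ 2 * lam ε =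
          m k * ((E ε fun p => (tt A S θ p * conj (v k p)).re) + m k * lam ε) := by
        ring
      have h2 := le_abs_self ((m k : ℝ) *
        ((E ε fun p => (tt A S θ p * conj (v k p)).re) + m k * lam ε))
      rw [abs_mul] at h2
      have h3 := mul_le_mul_of_nonneg_left hε (abs_nonneg (m k : ℝ))
      linarith)
  exact_mod_cast h1

end Pool.Agent.H68T
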