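import Pool.Agent.H68T.Edge
import Pool.Agent.H68T.Twist

set_option autoImplicit false

namespace Pool.Agent.H68T

open Complex Filter Topology ComplexConjugate
open Pool.Agent.H341R2

variable {N : ℕ}

/-- the group of pairs `(χ, t)` -/
abbrev Gam (N : ℕ) := Additive (DirichletCharacter ℂ N) × ℝ

/-- the character `(χ, t) ↦ χ(a) e^{itx}` of the group of pairs `(χ, t)` -/
noncomputable def pt (a : (ZMod N)ˣ) (x : ℝ) : Multiplicative (Gam N) →* ℂ where
  toFun k := (Additive.toMul (Multiplicative.toAdd k).1) (a : ZMod N) *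
    Complex.exp ((((Multiplicative.toAdd k).2 * x : ℝ) : ℂ) * I)
  map_one' := by simp
  map_mul' k l := by
    simp only [toAdd_mul, Prod.fst_add, Prod.snd_add, toMul_add, MulChar.mul_apply]
    rw [add_mul, Complex.ofReal_add, add_mul, Complex.exp_add]
    ring

theorem pt_apply (a : (ZMod N)ˣ) (x : ℝ) (k : Gam N) :
    pt a x (Multiplicative.ofAdd k) = (Additive.toMul k.1) (a : ZMod N) *
      Complex.exp (((k.2 * x : ℝ) : ℂ) * I) := rfl

theorem norm_pt (a : (ZMod N)ˣ) (x : ℝ) (k : Multiplicative (Gam N)) : ‖pt a x k‖ = 1 := by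
  have : pt a x k = (Additive.toMul (Multiplicative.toAdd k).1) (a : ZMod N) *
    Complex.exp ((((Multiplicative.toAdd k).2 * x : ℝ) : ℂ) * I) := rfl
  rw [this, norm_mul, Complex.norm_exp_ofReal_mul_I, mul_one]
  exact DirichletCharacter.unit_norm_eq_one _ _

open Classical in
/-- the inverse of the residue class of `p` modulo `N` (1 if `p ∣ N`) -/
noncomputable def uu (N : ℕ) (p : Nat.Primes) : (ZMod N)ˣ :=
  if h : Nat.Coprime p N then (ZMod.unitOfCoprime p h)⁻¹ else 1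

theorem prime_cpow_eq (p : Nat.Primes) (τ : ℝ) :
    ((p : ℕ) : ℂ) ^ (τ * I) = Complex.exp (((τ * Real.log p : ℝ) : ℂ) * I) := by
  have h0 : ((p : ℕ) : ℂ) ≠ 0 := by exact_mod_cast p.2.ne_zero
  rw [Complex.cpow_def_of_ne_zero h0, ← Complex.natCast_log]
  congr 1
  push_cast
  ring

theorem pt_uu (p : Nat.Primes) (hp : ¬ (p : ℕ) ∣ N) (k : Gam N) :
    pt (uu N p) (Real.log p) (Multiplicative.ofAdd k) = v (Additive.toMul k.1, k.2) p := by
  have hc : Nat.Coprime p N := (Nat.Prime.coprime_iff_not_dvd p.2).2 hp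
  have h1 : (Additive.toMul k.1) ((uu N p : (ZMod N)ˣ) : ZMod N) =
      conj ((Additive.toMul k.1) ((p : ℕ) : ZMod N)) := by
    rw [uu, dif_pos hc]
    have h2 : (Additive.toMul k.1) (((ZMod.unitOfCoprime p hc)⁻¹ : (ZMod N)ˣ) : ZMod N) *
        (Additive.toMul k.1) ((p : ℕ) : ZMod N) = 1 := by
      rw [← map_mul]
      have h3 : (((ZMod.unitOfCoprime (p : ℕ) hc)⁻¹ : (ZMod N)ˣ) : ZMod N) * ((p : ℕ) : ZMod N) =
          1 := by
        have h4 := ZMod.coe_unitOfCoprime (p : ℕ) hc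
        rw [← h4, Units.inv_mul]
      rw [h3, map_one]
    rw [eq_inv_of_mul_eq_one_left h2, Complex.inv_eq_conj]
    have h4 := ZMod.coe_unitOfCoprime (p : ℕ) hc
    rw [← h4]
    exact DirichletCharacter.unit_norm_eq_one _ _
  rw [pt_apply, h1, v, prime_cpow_eq]

theorem dvd_finite (N : ℕ) [NeZero N] : {p : Nat.Primes | (p : ℕ) ∣ N}.Finite := by
  refine Set.Finite.of_finite_image (f := fun p : Nat.Primes => (p : ℕ)) ?_
    (Subtype.val_injective.injOn)
  refine (Set.finite_Iic N).subset ?_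
  rintro _ ⟨p, hp, rfl⟩
  exact Nat.le_of_dvd (Nat.pos_of_ne_zero (NeZero.ne N)) hp

theorem v_dvd (p : Nat.Primes) (hp : (p : ℕ) ∣ N) (k : DirichletCharacter ℂ N × ℝ) :
    v k p = 0 := by
  have : k.1 (p : ℕ) = 0 := by
    apply MulChar.map_nonunit
    rw [ZMod.isUnit_iff_coprime]
    intro h
    exact p.2.one_lt.ne' (Nat.Coprime.eq_one_of_dvd h hp)
  rw [v, this]
  simp

theorem E_finite (F : Finset Nat.Primes) (g : Nat.Primes → ℝ) (hg : ∀ p ∉ F, g p = 0) {ε : ℝ}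
    (hε : 0 < ε) : |E ε g| ≤ ∑ p ∈ F, |g p| := by
  rw [E, tsum_eq_sum (s := F) (fun p hp => by rw [hg p hp, zero_mul])]
  refine (Finset.abs_sum_le_sum_abs _ _).trans (Finset.sum_le_sum fun p _ => ?_)
  rw [abs_mul, abs_of_nonneg (w_nonneg ε p)]
  refine mul_le_of_le_one_right (abs_nonneg _) ?_
  have h1 : (1 : ℝ) ≤ p := by exact_mod_cast p.2.one_lt.le
  exact Real.rpow_le_one_of_one_le_of_nonpos h1 (by linarith)

theorem pt_bounded [NeZero N] {k : Gam N} (hk : k ≠ 0) : ∃ C : ℝ, ∀ᶠ ε : ℝ in 𝓝[>] 0,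
    |E ε fun p => (pt (uu N p) (Real.log p) (Multiplicative.ofAdd k)).re| ≤ C := by
  classical
  set k' : DirichletCharacter ℂ N × ℝ := (Additive.toMul k.1, k.2) with hk'
  have hne : k' ≠ (1, 0) := by
    intro h
    apply hk
    have h1 := congrArg Prod.fst h
    have h2 := congrArg Prod.snd h
    refine Prod.ext ?_ h2
    exact h1
  obtain ⟨C, hC⟩ := v_orth hne
  set F := (dvd_finite N).toFinset with hF
  set g : Nat.Primes → ℝ := fun p =>
    (pt (uu N p) (Real.log p) (Multiplicative.ofAdd k)).re - (v k' p).re with hg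
  refine ⟨C + ∑ p ∈ F, |g p|, ?_⟩
  filter_upwards [hC, self_mem_nhdsWithin] with ε h1 h2
  have hε : (0 : ℝ) < ε := h2
  have hgF : ∀ p ∉ F, g p = 0 := by
    intro p hp
    have hp' : ¬ (p : ℕ) ∣ N := fun h => hp ((dvd_finite N).mem_toFinset.2 h)
    rw [hg]
    simp only
    rw [pt_uu p hp', sub_self]
  have h3 : (fun p => (v k' p * conj (v ((1 : DirichletCharacter ℂ N), (0 : ℝ)) p)).re) =
      fun p => (v k' p).re := by
    funext p
    by_cases hp : (p : ℕ) ∣ N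
    · rw [v_dvd p hp, zero_mul]
    · have hc : Nat.Coprime p N := (Nat.Prime.coprime_iff_not_dvd p.2).2 hp
      have h4 : v ((1 : DirichletCharacter ℂ N), (0 : ℝ)) p = 1 := by
        rw [v, MulChar.one_apply ((ZMod.isUnit_iff_coprime _ _).2 hc)]
        simp
      rw [h4, map_one, mul_one]
  rw [h3] at h1
  have hb1 : ∀ p, |(v k' p).re| ≤ 1 := fun p => (Complex.abs_re_le_norm _).trans (norm_v_le k' p)
  have hb2 : ∀ p, |g p| ≤ 2 := by
    intro p
    rw [hg]
    simp only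
    refine (abs_sub _ _).trans ?_
    have := (Complex.abs_re_le_norm _).trans
      (norm_pt (uu N p) (Real.log p) (Multiplicative.ofAdd k)).le
    linarith [hb1 p]
  have h5 : (E ε fun p => (pt (uu N p) (Real.log p) (Multiplicative.ofAdd k)).re) =
      (E ε fun p => (v k' p).re) + E ε g := by
    rw [← E_add hε hb1 hb2]
    congr 1
    funext p
    rw [hg]
    simp
  rw [h5]
  exact (abs_add_le _ _).trans (add_le_add h1 (E_finite F g hgF hε))

/-- All twists, the whole edge line. -/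
theorem twist_global {d : ℕ} {A : Nat.Primes → Matrix (Fin d) (Fin d) ℂ} {S : Finset Nat.Primes}
    {θ : ℝ} (hA : ∀ p ∉ S, ∀ β ∈ (A p).charpoly.roots, ‖β‖ ≤ (p : ℝ) ^ θ) [NeZero N]
    (Λ : DirichletCharacter ℂ N → ℂ → ℂ)
    (hΛ : ∀ χ, ∀ s : ℂ, s.re = 1 + θ → MeromorphicAt (Λ χ) s)
    (hΛL : ∀ χ, ∀ s : ℂ, 1 + θ < s.re → Λ χ s = twistedL A S χ s) :
    ∃ (T : Finset (DirichletCharacter ℂ N × ℝ)) (m : DirichletCharacter ℂ N × ℝ → ℤ),
      (∀ k, meromorphicOrderAt (Λ k.1) (1 + θ + k.2 * I) = m k) ∧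
      (∀ k, k ∈ T ↔ m k ≠ 0) ∧
      ∑ k ∈ T, (m k) ^ 2 ≤ (d : ℤ) ^ 2 ∧
      ∀ (a : (ZMod N)ˣ) (x : ℝ),
        ‖∑ k ∈ T, (m k : ℂ) * (k.1 a * Complex.exp (((k.2 * x : ℝ) : ℂ) * I))‖ ≤ d := by
  classical
  let e : Gam N ≃ DirichletCharacter ℂ N × ℝ := Equiv.prodCongr Additive.toMul (Equiv.refl ℝ)
  have he : ∀ k : Gam N, e k = (Additive.toMul k.1, k.2) := fun k => rfl
  have h : ∀ k : DirichletCharacter ℂ N × ℝ, ∃ m : ℤ,
      meromorphicOrderAt (Λ k.1) (1 + θ + k.2 * I) = m ∧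
      ∃ C' : ℝ, ∀ᶠ ε : ℝ in 𝓝[>] 0,
        |(E ε fun p => (tt A S θ p * conj (v k p)).re) + m * lam ε| ≤ C' := fun k =>
    twist_order hA k (hΛ k.1 _ (by simp)) (Filter.Eventually.of_forall fun s hs => hΛL k.1 s hs)
  choose m hm1 hm2 using h
  have key := edge_divisor (Γ := Gam N) (Φ := fun p => pt (uu N p) (Real.log p))
    (fun p k => norm_pt _ _ _) (fun k hk => pt_bounded hk)
    (fun p => if (p : ℕ) ∣ N then 0 else tt A S θ p) d
    (fun p => by
      split_ifs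
      · simp
      · exact norm_tt_le hA p)
    (fun k => m (e k))
    (fun k => by
      obtain ⟨C, hC⟩ := hm2 (e k)
      refine ⟨C, ?_⟩
      filter_upwards [hC] with ε hε
      convert hε using 4
      funext p
      by_cases hp : (p : ℕ) ∣ N
      · rw [if_pos hp, v_dvd p hp]
        simp
      · rw [if_neg hp, pt_uu p hp, he])
  obtain ⟨T, hT1, hT2, hT3⟩ := key
  refine ⟨T.map e.toEmbedding, m, hm1, fun k => ?_, ?_, fun a x => ?_⟩
  · rw [Finset.mem_map_equiv, hT1, Equiv.apply_symm_apply]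
  · rw [Finset.sum_map]
    have : ((∑ τ ∈ T, (m (e τ)) ^ 2 : ℤ) : ℝ) ≤ (((d : ℤ) ^ 2 : ℤ) : ℝ) := by
      push_cast
      exact hT2
    exact_mod_cast this
  · rw [Finset.sum_map]
    exact hT3 (pt a x) (norm_pt a x)

end Pool.Agent.H68T
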