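import Pool.Agent.H341R2.EdgeDivisor
import Pool.Agent.H341R2.TwoSided

set_option autoImplicit false

namespace Pool.Agent.H68T

open Complex Filter Topology ComplexConjugate
open Pool.Agent.H341R2

theorem order_of_exp {ρ : ℂ} (a : Nat.Primes → ℂ) (g : ℝ → ℂ) {C₀ : ℝ}
    (hg : ∀ ε : ℝ, 0 < ε → |(g ε).re - E ε fun p => (a p).re| ≤ C₀)
    {Λ : ℂ → ℂ} (hΛ : MeromorphicAt Λ ρ) (hΛg : ∀ ε : ℝ, 0 < ε → Λ (ρ + ε) = cexp (g ε)) :
    ∃ m : ℤ, meromorphicOrderAt Λ ρ = m ∧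
      ∃ C' : ℝ, ∀ᶠ ε : ℝ in 𝓝[>] 0, |(E ε fun p => (a p).re) + m * lam ε| ≤ C' := by
  have hmain : ∀ᶠ ε : ℝ in 𝓝[>] 0, Λ (ρ + ε) ≠ 0 ∧
      |(E ε fun p => (a p).re) - Real.log ‖Λ (ρ + ε)‖| ≤ C₀ := by
    filter_upwards [self_mem_nhdsWithin] with ε h
    have hε : (0 : ℝ) < ε := h
    rw [hΛg ε hε, Complex.norm_exp, Real.log_exp, abs_sub_comm]
    exact ⟨Complex.exp_ne_zero _, hg ε hε⟩
  have hfreq : ∃ᶠ z in 𝓝[≠] ρ, Λ z ≠ 0 := by
    have hpath : Tendsto (fun ε : ℝ => ρ + ε) (𝓝[>] 0) (𝓝[≠] ρ) := by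
      rw [tendsto_nhdsWithin_iff]
      refine ⟨path_tendsto' ρ, ?_⟩
      filter_upwards [self_mem_nhdsWithin] with ε hε
      have hε' : (0 : ℝ) < ε := hε
      simp only [Set.mem_compl_iff, Set.mem_singleton_iff, add_eq_left]
      exact_mod_cast hε'.ne'
    exact hpath.frequently (hmain.mono fun _ h => h.1).frequently
  have hnt : meromorphicOrderAt Λ ρ ≠ ⊤ := by
    rw [Ne, meromorphicOrderAt_eq_top_iff]
    intro h
    exact hfreq (h.mono fun z hz => not_not.2 hz)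
  obtain ⟨m, hm⟩ := WithTop.ne_top_iff_exists.1 hnt
  refine ⟨m, hm.symm, ?_⟩
  obtain ⟨C₂, hC₂⟩ := log_norm_meromorphic hΛ hm.symm
  obtain ⟨C₃, hC₃⟩ := lam_bounded
  refine ⟨C₀ + C₂ + |(m : ℝ)| * C₃, ?_⟩
  filter_upwards [hmain, hC₂, hC₃] with ε h1 h2 h3
  have h4 : (E ε fun p => (a p).re) + m * lam ε =
      ((E ε fun p => (a p).re) - Real.log ‖Λ (ρ + ε)‖) +
      (Real.log ‖Λ (ρ + ε)‖ - m * Real.log ε) + m * (lam ε + Real.log ε) := by ring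
  rw [h4]
  refine (abs_add_le _ _).trans (add_le_add ((abs_add_le _ _).trans (add_le_add h1.2 h2.2)) ?_)
  rw [abs_mul]
  exact mul_le_mul_of_nonneg_left h3 (abs_nonneg _)

theorem selberg_g (b : ℕ → ℂ) (hb : ∀ n, ¬ IsPrimePow n → b n = 0) {θ C : ℝ} (hθ : θ < 1 / 2)
    (hbn : ∀ n : ℕ, 1 ≤ n → ‖b n‖ ≤ C * (n : ℝ) ^ θ) {B : ℝ} (hB : ∀ p : Nat.Primes, ‖b p‖ ≤ B)
    (τ : ℝ) : ∃ C₀ : ℝ, ∀ ε : ℝ, 0 < ε →
      |(LSeries b ((1 + τ * I : ℂ) + ε)).re -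
        E ε fun p => (b p * ((p : ℕ) : ℂ) ^ (-(τ * I))).re| ≤ C₀ := by
  have hC : 0 ≤ C := by
    have := hbn 1 le_rfl
    rw [Nat.cast_one, Real.one_rpow, mul_one] at this
    exact (norm_nonneg _).trans this
  have hB0 : 0 ≤ B := (norm_nonneg _).trans (hB ⟨2, Nat.prime_two⟩)
  set r : ℝ := θ - 1 with hr
  have hr2 : 2 * r < -1 := by rw [hr]; linarith
  set q : ℝ := (2 : ℝ) ^ r with hq
  have hq0 : 0 < q := by positivity
  have hq1 : q < 1 := Real.rpow_lt_one_of_one_lt_of_neg (by norm_num) (by linarith)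
  have hp2 : Summable fun p : Nat.Primes => (p : ℝ) ^ (2 * r) := summable_prime_rpow hr2
  have hre : ∀ ε : ℝ, ((1 + τ * I : ℂ) + ε).re = 1 + ε := fun ε => by simp
  have hterm : ∀ (ε : ℝ), 0 < ε → ∀ (p : Nat.Primes) (k : ℕ),
      ‖LSeries.term b ((1 + τ * I : ℂ) + ε) ((p : ℕ) ^ (k + 2))‖ ≤
        (C * (p : ℝ) ^ (2 * r)) * q ^ k := by
    intro ε hε p k
    have hp0 : (0 : ℝ) < p := by exact_mod_cast p.2.pos
    have hp2' : (2 : ℝ) ≤ p := by exact_mod_cast p.2.two_le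
    have hn1 : 1 ≤ (p : ℕ) ^ (k + 2) := Nat.one_le_pow _ _ p.2.pos
    have hn0 : (p : ℕ) ^ (k + 2) ≠ 0 := by omega
    rw [LSeries.norm_term_eq, if_neg hn0, hre]
    have hnr : (1 : ℝ) ≤ (((p : ℕ) ^ (k + 2) : ℕ) : ℝ) := by exact_mod_cast hn1
    have h1 : ‖b ((p : ℕ) ^ (k + 2))‖ / (((p : ℕ) ^ (k + 2) : ℕ) : ℝ) ^ (1 + ε) ≤
        C * (((p : ℕ) ^ (k + 2) : ℕ) : ℝ) ^ r := by
      rw [div_le_iff₀ (by positivity), mul_assoc, ← Real.rpow_add (by linarith)]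
      refine (hbn _ hn1).trans (mul_le_mul_of_nonneg_left ?_ hC)
      exact Real.rpow_le_rpow_of_exponent_le hnr (by rw [hr]; linarith)
    refine h1.trans ?_
    rw [mul_assoc]
    refine mul_le_mul_of_nonneg_left ?_ hC
    have h3 : (((p : ℕ) ^ (k + 2) : ℕ) : ℝ) ^ r = (p : ℝ) ^ (2 * r) * ((p : ℝ) ^ r) ^ k := by
      rw [Nat.cast_pow, ← Real.rpow_natCast (p : ℝ) (k + 2), ← Real.rpow_mul hp0.le,
        ← Real.rpow_natCast ((p : ℝ) ^ r) k, ← Real.rpow_mul hp0.le, ← Real.rpow_add hp0]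
      congr 1
      push_cast
      ring
    rw [h3]
    refine mul_le_mul_of_nonneg_left ?_ (by positivity)
    refine pow_le_pow_left₀ (by positivity) ?_ k
    exact Real.rpow_le_rpow_of_nonpos (by norm_num) hp2' (by linarith)
  have hterm1 : ∀ (ε : ℝ), 0 < ε → ∀ (p : Nat.Primes),
      ‖LSeries.term b ((1 + τ * I : ℂ) + ε) (p : ℕ)‖ ≤ B * (p : ℝ) ^ (-(1 + ε)) := by
    intro ε hε p
    have hp0 : (0 : ℝ) < p := by exact_mod_cast p.2.pos
    rw [LSeries.norm_term_eq, if_neg p.2.ne_zero, hre, div_eq_mul_inv, ← Real.rpow_neg hp0.le]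
    exact mul_le_mul_of_nonneg_right (hB p) (by positivity)
  have hsum1 : ∀ ε : ℝ, 0 < ε →
      Summable fun p : Nat.Primes => LSeries.term b ((1 + τ * I : ℂ) + ε) (p : ℕ) := fun ε hε =>
    Summable.of_norm_bounded ((summable_prime_rpow (r := -(1 + ε)) (by linarith)).mul_left B)
      (hterm1 ε hε)
  have hsum : ∀ ε : ℝ, 0 < ε → Summable (LSeries.term b ((1 + τ * I : ℂ) + ε)) := by
    intro ε hε
    have hu : Summable fun p : Nat.Primes =>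
        B * (p : ℝ) ^ (-(1 + ε)) + C * q⁻¹ * (p : ℝ) ^ (2 * r) :=
      ((summable_prime_rpow (by linarith)).mul_left B).add (hp2.mul_left _)
    have hw : Summable fun k : ℕ => q ^ k := summable_geometric_of_lt_one hq0.le hq1
    have h1 := hu.mul_of_nonneg hw (fun p => by positivity) (fun k => by positivity)
    have h2 : Summable fun x : Nat.Primes × ℕ =>
        LSeries.term b ((1 + τ * I : ℂ) + ε) ((x.1 : ℕ) ^ (x.2 + 1)) := by
      refine Summable.of_norm_bounded h1 fun x => ?_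
      obtain ⟨p, k⟩ := x
      have hp0 : (0 : ℝ) < p := by exact_mod_cast p.2.pos
      rcases k with _ | k
      · simp only [zero_add, pow_one, pow_zero, mul_one]
        refine (hterm1 ε hε p).trans ?_
        have : 0 ≤ C * q⁻¹ * (p : ℝ) ^ (2 * r) := by positivity
        linarith
      · refine (hterm ε hε p k).trans ?_
        have h3 : 0 ≤ B * (p : ℝ) ^ (-(1 + ε)) * q ^ (k + 1) := by positivity
        have h4 : (C * (p : ℝ) ^ (2 * r)) * q ^ k =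
            C * q⁻¹ * (p : ℝ) ^ (2 * r) * q ^ (k + 1) := by
          rw [pow_succ]
          field_simp
        simp only
        rw [add_mul, h4]
        linarith
    refine (Function.Injective.summable_iff (g := (Subtype.val : {n : ℕ // IsPrimePow n} → ℕ))
      Subtype.val_injective ?_).1 ?_
    · intro n hn
      rw [Subtype.range_val] at hn
      rw [LSeries.term_def, hb n hn]
      simp
    · rw [← Nat.Primes.prodNatEquiv.summable_iff]
      exact h2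
  refine ⟨∑' p : Nat.Primes, (C * (p : ℝ) ^ (2 * r)) * (1 - q)⁻¹, fun ε hε => ?_⟩
  have hsupp : Function.support (LSeries.term b ((1 + τ * I : ℂ) + ε)) ⊆ {n | IsPrimePow n} := by
    intro n hn
    by_contra h
    apply hn
    rw [LSeries.term_def, hb n h]
    simp
  have h1 := tsum_eq_tsum_primes_add_tsum_primes_of_support_subset_prime_powers
    (hsum ε hε) hsupp
  have h2 : (E ε fun p => (b p * ((p : ℕ) : ℂ) ^ (-(τ * I))).re) =
      (∑' p : Nat.Primes, LSeries.term b ((1 + τ * I : ℂ) + ε) (p : ℕ)).re := by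
    rw [E, Complex.re_tsum (hsum1 ε hε)]
    refine tsum_congr fun p => ?_
    have hp0 : (0 : ℝ) < p := by exact_mod_cast p.2.pos
    have hpc : ((p : ℕ) : ℂ) ≠ 0 := by exact_mod_cast p.2.ne_zero
    rw [LSeries.term_of_ne_zero p.2.ne_zero, div_eq_mul_inv, ← Complex.cpow_neg]
    have h3 : ((p : ℕ) : ℂ) ^ (-((1 + τ * I : ℂ) + ε)) =
        ((p : ℕ) : ℂ) ^ (-(τ * I)) * (((p : ℝ) ^ (-(1 + ε)) : ℝ) : ℂ) := by
      rw [Complex.ofReal_cpow hp0.le]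
      push_cast
      rw [← Complex.cpow_add _ _ hpc]
      congr 1
      ring
    rw [h3, ← mul_assoc, Complex.re_mul_ofReal]
  rw [LSeries, h1, Complex.add_re, h2, add_sub_cancel_left]
  refine (Complex.abs_re_le_norm _).trans ?_
  refine tsum_of_norm_bounded ((hp2.mul_left C).mul_right _).hasSum fun p => ?_
  exact tsum_of_norm_bounded ((hasSum_geometric_of_lt_one hq0.le hq1).mul_left _)
    fun k => hterm ε hε p k

/-- Edge divisor of an Euler product of Selberg class type. -/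
theorem selberg_edge (b : ℕ → ℂ) (hb : ∀ n, ¬ IsPrimePow n → b n = 0) {θ C : ℝ} (hθ : θ < 1 / 2)
    (hbn : ∀ n : ℕ, 1 ≤ n → ‖b n‖ ≤ C * (n : ℝ) ^ θ) {B : ℝ} (hB : ∀ p : Nat.Primes, ‖b p‖ ≤ B)
    {F : ℂ → ℂ} (hF : ∀ τ : ℝ, MeromorphicAt F (1 + τ * I))
    (hFb : ∀ s : ℂ, 1 < s.re → F s = cexp (LSeries b s)) :
    ∃ (T : Finset ℝ) (m : ℝ → ℤ),
      (∀ τ : ℝ, meromorphicOrderAt F (1 + τ * I) = m τ) ∧
      (∀ τ : ℝ, τ ∈ T ↔ m τ ≠ 0) ∧
      ∑ τ ∈ T, (m τ : ℝ) ^ 2 ≤ B ^ 2 ∧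
      ∀ x : ℝ, ‖∑ τ ∈ T, (m τ : ℂ) * Complex.exp (((τ * x : ℝ) : ℂ) * I)‖ ≤ B := by
  have hord : ∀ τ : ℝ, ∃ m : ℤ, meromorphicOrderAt F (1 + τ * I) = m ∧
      ∃ C' : ℝ, ∀ᶠ ε : ℝ in 𝓝[>] 0,
        |(E ε fun p => (b p * ((p : ℕ) : ℂ) ^ (-(τ * I))).re) + m * lam ε| ≤ C' := by
    intro τ
    obtain ⟨C₀, hC₀⟩ := selberg_g b hb hθ hbn hB τ
    exact order_of_exp _ _ hC₀ (hF τ) fun ε hε => hFb _ (by simp [hε])
  choose m hm1 hm2 using hord
  obtain ⟨T, hT1, hT2⟩ := Pool.Agent.H341R2.edge_divisor (fun p => b p) B hB m hm2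
  refine ⟨T, m, hm1, hT1, ?_, hT2⟩
  exact bessel T (fun p => b p) (fun τ p => ((p : ℕ) : ℂ) ^ ((τ : ℂ) * I))
    (fun τ => (m τ : ℝ)) B hB
    (fun τ p => (norm_prime_cpow_I p τ).le) (fun k _ l _ hkl => vert_orth hkl) (by
      intro τ _
      obtain ⟨C, hC⟩ := hm2 τ
      refine ⟨|(m τ : ℝ)| * C, ?_⟩
      filter_upwards [hC] with ε hε
      simp only [conj_prime_cpow_I]
      have h1 : (m τ : ℝ) * (E ε fun p => (b p * ((p : ℕ) : ℂ) ^ (-(τ * I))).re) +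
          (m τ : ℝ) ^ 2 * lam ε =
          m τ * ((E ε fun p => (b p * ((p : ℕ) : ℂ) ^ (-(τ * I))).re) + m τ * lam ε) := by
        ring
      have h2 := le_abs_self ((m τ : ℝ) *
        ((E ε fun p => (b p * ((p : ℕ) : ℂ) ^ (-(τ * I))).re) + m τ * lam ε))
      rw [abs_mul] at h2
      have h3 := mul_le_mul_of_nonneg_left hε (abs_nonneg (m τ : ℝ))
      linarith)

end Pool.Agent.H68T
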