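import Pool.Agent.H68T.Selberg

set_option autoImplicit false

namespace Pool.Agent.H68T

open Complex Filter Topology ComplexConjugate
open Pool.Agent.H341R2

theorem selberg_norm (b : ℕ → ℂ) (hb : ∀ n, ¬ IsPrimePow n → b n = 0) {θ C : ℝ} (hθ : θ < 1 / 2)
    (hbn : ∀ n : ℕ, 1 ≤ n → ‖b n‖ ≤ C * (n : ℝ) ^ θ) {B : ℝ} (hB : ∀ p : Nat.Primes, ‖b p‖ ≤ B)
    (τ : ℝ) : ∃ C₀ : ℝ, ∀ ε : ℝ, 0 < ε →
      LSeriesSummable b ((1 + τ * I : ℂ) + ε) ∧
      ‖LSeries b ((1 + τ * I : ℂ) + ε) -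
        ∑' p : Nat.Primes, b p * ((p : ℕ) : ℂ) ^ (-(τ * I)) *
          (((p : ℝ) ^ (-(1 + ε)) : ℝ) : ℂ)‖ ≤ C₀ := by
  have hC : 0 ≤ C := by
    have := hbn 1 le_rfl
    rw [Nat.cast_one, Real.one_rpow, mul_one] at this
    exact (norm_nonneg _).trans this
  have hB0 : 0 ≤ B := (norm_nonneg _).trans (hB ⟨2, Nat.prime_two⟩)
  set r : ℝ := θ - 1 with hr
  have hr2 : 2 * r < -1 := by rw [hr]; linarith
  set q : ℝ := (2 : ℝ) ^ r with hq
  have hq0 : 0 < q := by positivity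
  have hq1 : q < 1 := Real.rpow_lt_one_of_one_lt_of_neg (by norm_num) (by linarith)
  have hp2 : Summable fun p : Nat.Primes => (p : ℝ) ^ (2 * r) := summable_prime_rpow hr2
  have hre : ∀ ε : ℝ, ((1 + τ * I : ℂ) + ε).re = 1 + ε := fun ε => by simp
  have hterm : ∀ (ε : ℝ), 0 < ε → ∀ (p : Nat.Primes) (k : ℕ),
      ‖LSeries.term b ((1 + τ * I : ℂ) + ε) ((p : ℕ) ^ (k + 2))‖ ≤
        (C * (p : ℝ) ^ (2 * r)) * q ^ k := by
    intro ε hε p k
    have hp0 : (0 : ℝ) < p := by exact_mod_cast p.2.pos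
    have hp2' : (2 : ℝ) ≤ p := by exact_mod_cast p.2.two_le
    have hn1 : 1 ≤ (p : ℕ) ^ (k + 2) := Nat.one_le_pow _ _ p.2.pos
    have hn0 : (p : ℕ) ^ (k + 2) ≠ 0 := by omega
    rw [LSeries.norm_term_eq, if_neg hn0, hre]
    have hnr : (1 : ℝ) ≤ (((p : ℕ) ^ (k + 2) : ℕ) : ℝ) := by exact_mod_cast hn1
    have h1 : ‖b ((p : ℕ) ^ (k + 2))‖ / (((p : ℕ) ^ (k + 2) : ℕ) : ℝ) ^ (1 + ε) ≤
        C * (((p : ℕ) ^ (k + 2) : ℕ) : ℝ) ^ r := by
      rw [div_le_iff₀ (by positivity), mul_assoc, ← Real.rpow_add (by linarith)]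
      refine (hbn _ hn1).trans (mul_le_mul_of_nonneg_left ?_ hC)
      exact Real.rpow_le_rpow_of_exponent_le hnr (by rw [hr]; linarith)
    refine h1.trans ?_
    rw [mul_assoc]
    refine mul_le_mul_of_nonneg_left ?_ hC
    have h3 : (((p : ℕ) ^ (k + 2) : ℕ) : ℝ) ^ r = (p : ℝ) ^ (2 * r) * ((p : ℝ) ^ r) ^ k := by
      rw [Nat.cast_pow, ← Real.rpow_natCast (p : ℝ) (k + 2), ← Real.rpow_mul hp0.le,
        ← Real.rpow_natCast ((p : ℝ) ^ r) k, ← Real.rpow_mul hp0.le, ← Real.rpow_add hp0]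
      congr 1
      push_cast
      ring
    rw [h3]
    refine mul_le_mul_of_nonneg_left ?_ (by positivity)
    refine pow_le_pow_left₀ (by positivity) ?_ k
    exact Real.rpow_le_rpow_of_nonpos (by norm_num) hp2' (by linarith)
  have hterm1 : ∀ (ε : ℝ), 0 < ε → ∀ (p : Nat.Primes),
      ‖LSeries.term b ((1 + τ * I : ℂ) + ε) (p : ℕ)‖ ≤ B * (p : ℝ) ^ (-(1 + ε)) := by
    intro ε hε p
    have hp0 : (0 : ℝ) < p := by exact_mod_cast p.2.pos
    rw [LSeries.norm_term_eq, if_neg p.2.ne_zero, hre, div_eq_mul_inv, ← Real.rpow_neg hp0.le]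
    exact mul_le_mul_of_nonneg_right (hB p) (by positivity)
  have hsum1 : ∀ ε : ℝ, 0 < ε →
      Summable fun p : Nat.Primes => LSeries.term b ((1 + τ * I : ℂ) + ε) (p : ℕ) := fun ε hε =>
    Summable.of_norm_bounded ((summable_prime_rpow (r := -(1 + ε)) (by linarith)).mul_left B)
      (hterm1 ε hε)
  have hsum : ∀ ε : ℝ, 0 < ε → Summable (LSeries.term b ((1 + τ * I : ℂ) + ε)) := by
    intro ε hε
    have hu : Summable fun p : Nat.Primes =>
        B * (p : ℝ) ^ (-(1 + ε)) + C * q⁻¹ * (p : ℝ) ^ (2 * r) :=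
      ((summable_prime_rpow (by linarith)).mul_left B).add (hp2.mul_left _)
    have hw : Summable fun k : ℕ => q ^ k := summable_geometric_of_lt_one hq0.le hq1
    have h1 := hu.mul_of_nonneg hw (fun p => by positivity) (fun k => by positivity)
    have h2 : Summable fun x : Nat.Primes × ℕ =>
        LSeries.term b ((1 + τ * I : ℂ) + ε) ((x.1 : ℕ) ^ (x.2 + 1)) := by
      refine Summable.of_norm_bounded h1 fun x => ?_
      obtain ⟨p, k⟩ := x
      have hp0 : (0 : ℝ) < p := by exact_mod_cast p.2.pos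
      rcases k with _ | k
      · simp only [zero_add, pow_one, pow_zero, mul_one]
        refine (hterm1 ε hε p).trans ?_
        have : 0 ≤ C * q⁻¹ * (p : ℝ) ^ (2 * r) := by positivity
        linarith
      · refine (hterm ε hε p k).trans ?_
        have h3 : 0 ≤ B * (p : ℝ) ^ (-(1 + ε)) * q ^ (k + 1) := by positivity
        have h4 : (C * (p : ℝ) ^ (2 * r)) * q ^ k =
            C * q⁻¹ * (p : ℝ) ^ (2 * r) * q ^ (k + 1) := by
          rw [pow_succ]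
          field_simp
        simp only
        rw [add_mul, h4]
        linarith
    refine (Function.Injective.summable_iff (g := (Subtype.val : {n : ℕ // IsPrimePow n} → ℕ))
      Subtype.val_injective ?_).1 ?_
    · intro n hn
      rw [Subtype.range_val] at hn
      rw [LSeries.term_def, hb n hn]
      simp
    · rw [← Nat.Primes.prodNatEquiv.summable_iff]
      exact h2
  refine ⟨∑' p : Nat.Primes, (C * (p : ℝ) ^ (2 * r)) * (1 - q)⁻¹, fun ε hε => ?_⟩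
  have hsupp : Function.support (LSeries.term b ((1 + τ * I : ℂ) + ε)) ⊆ {n | IsPrimePow n} := by
    intro n hn
    by_contra h
    apply hn
    rw [LSeries.term_def, hb n h]
    simp
  have h1 := tsum_eq_tsum_primes_add_tsum_primes_of_support_subset_prime_powers
    (hsum ε hε) hsupp
  have h2 : (∑' p : Nat.Primes, b p * ((p : ℕ) : ℂ) ^ (-(τ * I)) *
        (((p : ℝ) ^ (-(1 + ε)) : ℝ) : ℂ)) =
      ∑' p : Nat.Primes, LSeries.term b ((1 + τ * I : ℂ) + ε) (p : ℕ) := by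
    refine tsum_congr fun p => ?_
    have hp0 : (0 : ℝ) < p := by exact_mod_cast p.2.pos
    have hpc : ((p : ℕ) : ℂ) ≠ 0 := by exact_mod_cast p.2.ne_zero
    rw [LSeries.term_of_ne_zero p.2.ne_zero, div_eq_mul_inv, ← Complex.cpow_neg]
    have h3 : ((p : ℕ) : ℂ) ^ (-((1 + τ * I : ℂ) + ε)) =
        ((p : ℕ) : ℂ) ^ (-(τ * I)) * (((p : ℝ) ^ (-(1 + ε)) : ℝ) : ℂ) := by
      rw [Complex.ofReal_cpow hp0.le]
      push_cast
      rw [← Complex.cpow_add _ _ hpc]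
      congr 1
      ring
    rw [h3, ← mul_assoc]
  refine ⟨hsum ε hε, ?_⟩
  rw [LSeries, h1, h2, add_sub_cancel_left]
  refine tsum_of_norm_bounded ((hp2.mul_left C).mul_right _).hasSum fun p => ?_
  exact tsum_of_norm_bounded ((hasSum_geometric_of_lt_one hq0.le hq1).mul_left _)
    fun k => hterm ε hε p k

/-- If the order at `1 + iτ` vanishes, the prime sums stay bounded there. -/
theorem selberg_bounded (b : ℕ → ℂ) (hb : ∀ n, ¬ IsPrimePow n → b n = 0) {θ C : ℝ}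
    (hθ : θ < 1 / 2)
    (hbn : ∀ n : ℕ, 1 ≤ n → ‖b n‖ ≤ C * (n : ℝ) ^ θ) {B : ℝ} (hB : ∀ p : Nat.Primes, ‖b p‖ ≤ B)
    {F : ℂ → ℂ} (τ : ℝ) (hF : MeromorphicAt F (1 + τ * I))
    (hFb : ∀ s : ℂ, 1 < s.re → F s = cexp (LSeries b s))
    (h0 : meromorphicOrderAt F (1 + τ * I) = ((0 : ℤ) : WithTop ℤ)) :
    ∃ C' : ℝ, ∀ᶠ ε : ℝ in 𝓝[>] 0,
      ‖∑' p : Nat.Primes, b p * ((p : ℕ) : ℂ) ^ (-(τ * I)) *
          (((p : ℝ) ^ (-(1 + ε)) : ℝ) : ℂ)‖ ≤ C' := by
  set ρ : ℂ := 1 + τ * I with hρ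
  obtain ⟨C₀, hC₀⟩ := selberg_norm b hb hθ hbn hB τ
  obtain ⟨h, hh, hh0, hhF⟩ := (meromorphicOrderAt_eq_int_iff hF).1 h0
  have habs : LSeries.abscissaOfAbsConv b ≤ ((1 : ℝ) : EReal) := by
    refine LSeries.abscissaOfAbsConv_le_of_forall_lt_LSeriesSummable' fun y hy => ?_
    have hy' : 1 < y := by exact_mod_cast hy
    obtain ⟨C₁, hC₁⟩ := selberg_norm b hb hθ hbn hB 0
    have := (hC₁ (y - 1) (by linarith)).1
    convert this using 1
    push_cast
    ring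
  -- logarithmic derivative
  have hev : ∀ᶠ z in 𝓝 ρ, AnalyticAt ℂ h z ∧ h z ≠ 0 ∧ ‖deriv h z / h z‖ ≤
      ‖deriv h ρ / h ρ‖ + 1 := by
    have e1 := hh.eventually_analyticAt
    have e2 : ∀ᶠ z in 𝓝 ρ, h z ≠ 0 := hh.continuousAt.eventually_ne hh0
    have e3 : ContinuousAt (fun z => ‖deriv h z / h z‖) ρ :=
      (hh.deriv.continuousAt.div hh.continuousAt hh0).norm
    have e4 := e3.eventually_lt_const (lt_add_one _)
    filter_upwards [e1, e2, e4] with z h1 h2 h3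
    exact ⟨h1, h2, h3.le⟩
  have hev2 : ∀ᶠ z in 𝓝 ρ, z ≠ ρ → F z = h z := by
    have := eventually_nhdsWithin_iff.1 hhF
    filter_upwards [this] with z hz hne
    simpa using hz hne
  obtain ⟨δ, hδ, hball⟩ := Metric.eventually_nhds_iff_ball.1 (hev.and hev2)
  set M : ℝ := ‖deriv h ρ / h ρ‖ + 1 with hM
  have hre : ∀ ε : ℝ, (ρ + ε).re = 1 + ε := fun ε => by simp [hρ]
  have hderiv : ∀ ε : ℝ, 0 < ε → ε < δ →
      HasDerivAt (LSeries b) (deriv h (ρ + ε) / h (ρ + ε)) (ρ + ε) := by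
    intro ε hε hεδ
    have hs : LSeries.abscissaOfAbsConv b < ((ρ + ε : ℂ).re : EReal) := by
      refine habs.trans_lt ?_
      rw [hre, EReal.coe_lt_coe_iff]
      linarith
    have h1 := LSeries_hasDerivAt hs
    have hmem : (ρ + ε : ℂ) ∈ Metric.ball ρ δ := by
      rw [Metric.mem_ball, dist_eq_norm, add_sub_cancel_left, Complex.norm_real,
        Real.norm_eq_abs, abs_of_pos hε]
      exact hεδ
    have h2 := h1.cexp
    have h3 : (fun s => cexp (LSeries b s)) =ᶠ[𝓝 (ρ + ε : ℂ)] h := by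
      have e1 : ∀ᶠ s in 𝓝 (ρ + ε : ℂ), s ∈ Metric.ball ρ δ := Metric.isOpen_ball.mem_nhds hmem
      have e2 : ∀ᶠ s in 𝓝 (ρ + ε : ℂ), 1 < s.re := by
        refine (isOpen_lt continuous_const Complex.continuous_re).mem_nhds ?_
        show 1 < (ρ + ε : ℂ).re
        rw [hre]; linarith
      filter_upwards [e1, e2] with s h4 h5
      rw [← hFb s h5]
      refine (hball s h4).2 fun h6 => ?_
      rw [h6, hρ] at h5
      simp at h5
    have h4 := ((hball _ hmem).1.1.differentiableAt.hasDerivAt).unique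
      (h2.congr_of_eventuallyEq h3.symm)
    have h5 : cexp (LSeries b (ρ + ε)) = h (ρ + ε) := h3.self_of_nhds
    rw [h5] at h4
    rw [h4, mul_div_cancel_left₀ _ (hball _ hmem).1.2.1]
    exact h1
  have hg : ∀ ε : ℝ, 0 < ε → ε < δ → ‖LSeries b (ρ + ε) - LSeries b (ρ + (δ / 2 : ℝ))‖ ≤
      M * δ := by
    intro ε hε hεδ
    have hmap : ∀ x : ℝ, x ∈ Set.Ioo 0 δ → HasDerivWithinAt
        (fun x : ℝ => LSeries b (ρ + x)) (deriv h (ρ + x) / h (ρ + x)) (Set.Ioo 0 δ) x := by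
      intro x hx
      have h1 := hderiv x hx.1 hx.2
      have h2 : HasDerivAt (fun x : ℝ => ρ + (x : ℂ)) 1 x :=
        (Complex.ofRealCLM.hasDerivAt (x := x)).const_add ρ
      have h3 := h1.scomp x h2
      rw [one_smul] at h3
      exact h3.hasDerivWithinAt
    have hb' : ∀ x ∈ Set.Ioo 0 δ, ‖deriv h (ρ + x) / h (ρ + x)‖ ≤ M := by
      intro x hx
      refine (hball _ ?_).1.2.2
      rw [Metric.mem_ball, dist_eq_norm, add_sub_cancel_left, Complex.norm_real,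
        Real.norm_eq_abs, abs_of_pos hx.1]
      exact hx.2
    have h4 := (convex_Ioo (0 : ℝ) δ).norm_image_sub_le_of_norm_hasDerivWithin_le hmap hb'
      (x := δ / 2) (y := ε) ⟨by linarith, by linarith⟩ ⟨hε, hεδ⟩
    refine h4.trans ?_
    have hM0 : 0 ≤ M := by positivity
    refine mul_le_mul_of_nonneg_left ?_ hM0
    rw [Real.norm_eq_abs, abs_le]
    constructor <;> linarith
  refine ⟨C₀ + (M * δ + ‖LSeries b (ρ + (δ / 2 : ℝ))‖), ?_⟩
  filter_upwards [Ioo_mem_nhdsGT hδ] with ε hε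
  have h1 := (hC₀ ε hε.1).2
  have h2 := hg ε hε.1 hε.2
  have h3 : ‖LSeries b (ρ + ε)‖ ≤ M * δ + ‖LSeries b (ρ + (δ / 2 : ℝ))‖ := by
    have := norm_sub_norm_le (LSeries b (ρ + ε)) (LSeries b (ρ + (δ / 2 : ℝ)))
    linarith
  have h4 := norm_sub_norm_le (∑' p : Nat.Primes, b p * ((p : ℕ) : ℂ) ^ (-(τ * I)) *
          (((p : ℝ) ^ (-(1 + ε)) : ℝ) : ℂ)) (LSeries b (ρ + ε))
  rw [norm_sub_rev] at h4
  linarith

end Pool.Agent.H68T
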