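import Mathlib

set_option autoImplicit false

namespace Pool.Agent.H68T

open Complex Filter Topology LSeries

theorem coeff_prime_eq (a b : ℕ → ℂ) (ha1 : a 1 = 1) {Ca : ℝ}
    (ha : ∀ n : ℕ, 1 ≤ n → ‖a n‖ ≤ Ca * (n : ℝ) ^ (1 : ℝ)) {θ C : ℝ} (hθ : θ < 1 / 2)
    (hbn : ∀ n : ℕ, 1 ≤ n → ‖b n‖ ≤ C * (n : ℝ) ^ θ)
    (hE : ∀ s : ℂ, 1 < s.re → LSeries a s = cexp (LSeries b s)) (p : ℕ) (hp : p.Prime) :
    a p = b p := by
  have hA : abscissaOfAbsConv a ≤ ((2 : ℝ) : EReal) := by
    have h := abscissaOfAbsConv_le_of_le_const_mul_rpow (f := a) (x := 1)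
      ⟨Ca, fun n hn => ha n (Nat.one_le_iff_ne_zero.2 hn)⟩
    refine h.trans (le_of_eq ?_)
    rw [← EReal.coe_one, ← EReal.coe_add]
    norm_num
  have hB : abscissaOfAbsConv b ≤ ((2 : ℝ) : EReal) := by
    have h := abscissaOfAbsConv_le_of_le_const_mul_rpow (f := b) (x := θ)
      ⟨C, fun n hn => hbn n (Nat.one_le_iff_ne_zero.2 hn)⟩
    refine h.trans ?_
    rw [← EReal.coe_one, ← EReal.coe_add, EReal.coe_le_coe_iff]
    linarith
  have key : ∀ x : ℝ, 2 < x → LSeries (logMul a) x = LSeries (LSeries.convolution a (logMul b)) x := by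
    intro x hx
    have hx2 : ((2 : ℝ) : EReal) < (((x : ℂ).re : ℝ) : EReal) := by
      rw [EReal.coe_lt_coe_iff, Complex.ofReal_re]
      exact hx
    have h1 : HasDerivAt (LSeries a) (-LSeries (logMul a) x) (x : ℂ) :=
      LSeries_hasDerivAt (hA.trans_lt hx2)
    have h2 : HasDerivAt (fun s => cexp (LSeries b s))
        (cexp (LSeries b x) * (-LSeries (logMul b) x)) (x : ℂ) :=
      (LSeries_hasDerivAt (hB.trans_lt hx2)).cexp
    have h3 : LSeries a =ᶠ[𝓝 (x : ℂ)] fun s => cexp (LSeries b s) := by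
      have h4 : {s : ℂ | 1 < s.re} ∈ 𝓝 (x : ℂ) := by
        refine (isOpen_lt continuous_const Complex.continuous_re).mem_nhds ?_
        show (1 : ℝ) < (x : ℂ).re
        rw [Complex.ofReal_re]
        linarith
      filter_upwards [h4] with s hs
      exact hE s hs
    have h5 := h1.unique (h2.congr_of_eventuallyEq h3)
    rw [LSeries_convolution (hA.trans_lt hx2) (by
      rw [abscissaOfAbsConv_logMul]
      exact hB.trans_lt hx2)]
    rw [hE (x : ℂ) (by rw [Complex.ofReal_re]; linarith)]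
    linear_combination -h5
  have htop : ((2 : ℝ) : EReal) < ⊤ := EReal.coe_lt_top 2
  have h1 := LSeries.eq_of_LSeries_eventually_eq (f := logMul a) (g := LSeries.convolution a (logMul b))
    (by rw [abscissaOfAbsConv_logMul]; exact hA.trans_lt htop)
    ((abscissaOfAbsConv_convolution_le _ _).trans_lt (by
      rw [abscissaOfAbsConv_logMul]
      exact max_lt (hA.trans_lt htop) (hB.trans_lt htop)))
    (by
      filter_upwards [eventually_gt_atTop (2 : ℝ)] with x hx
      exact key x hx)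
    hp.ne_zero
  rw [convolution_def] at h1
  simp only at h1
  rw [Nat.sum_divisorsAntidiagonal (fun x y => a x * logMul b y), Nat.Prime.sum_divisors hp,
    Nat.div_self hp.pos, Nat.div_one, logMul, logMul, logMul, ha1] at h1
  simp only [Nat.cast_one, Complex.log_one, zero_mul, mul_zero, zero_add, one_mul] at h1
  have hlog : Complex.log (p : ℂ) ≠ 0 := by
    rw [← Complex.natCast_log]
    exact_mod_cast (Real.log_pos (by exact_mod_cast hp.one_lt)).ne'
  exact mul_left_cancel₀ hlog h1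

end Pool.Agent.H68T
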