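import Pool.Agent.H341R2.TwistBessel

set_option autoImplicit false

/-! Generalization of `Pool.Agent.H341R2.SupNorm` and `Pool.Agent.H341R2.EdgeDivisor` (trigonometric
polynomials in one real frequency) to finite combinations of elements of an abelian group. -/

namespace Pool.Agent.H68T

open Complex Filter Topology ComplexConjugate
open Pool.Agent.H341R2

variable {Γ : Type*} [AddCommGroup Γ]

/-- evaluation of the real group algebra at a unitary character -/
noncomputable def ev (φ : Multiplicative Γ →* ℂ) : AddMonoidAlgebra ℝ Γ →ₐ[ℝ] ℂ :=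
  AddMonoidAlgebra.lift ℝ ℂ Γ φ

theorem ev_single (φ : Multiplicative Γ →* ℂ) (ν : Γ) (r : ℝ) :
    ev φ (AddMonoidAlgebra.single ν r) = r * φ (Multiplicative.ofAdd ν) := by
  rw [ev, AddMonoidAlgebra.lift_single]
  simp [Complex.real_smul]

/-- `star` : `ν ↦ -ν` -/
noncomputable def st : AddMonoidAlgebra ℝ Γ →+* AddMonoidAlgebra ℝ Γ :=
  AddMonoidAlgebra.mapDomainRingHom ℝ (negAddMonoidHom)

theorem st_single (ν : Γ) (r : ℝ) :
    st (AddMonoidAlgebra.single ν r) = AddMonoidAlgebra.single (-ν) r := by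
  rw [st]
  simp

theorem st_coeff (P : AddMonoidAlgebra ℝ Γ) (ν : Γ) : (st P).coeff (-ν) = P.coeff ν := by
  classical
  induction P using AddMonoidAlgebra.induction_linear with
  | zero => simp
  | add x y hx hy => rw [map_add, AddMonoidAlgebra.coeff_add, AddMonoidAlgebra.coeff_add,
      Finsupp.add_apply, Finsupp.add_apply, hx, hy]
  | single m r =>
    rw [st_single, AddMonoidAlgebra.coeff_single, AddMonoidAlgebra.coeff_single,
      Finsupp.single_apply, Finsupp.single_apply]
    simp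

theorem conj_unitary {φ : Multiplicative Γ →* ℂ} (hφ : ∀ k, ‖φ k‖ = 1) (ν : Γ) :
    φ (Multiplicative.ofAdd (-ν)) = conj (φ (Multiplicative.ofAdd ν)) := by
  have h1 : φ (Multiplicative.ofAdd (-ν)) * φ (Multiplicative.ofAdd ν) = 1 := by
    rw [← map_mul, ← ofAdd_add, neg_add_cancel, ofAdd_zero, map_one]
  rw [eq_inv_of_mul_eq_one_left h1, Complex.inv_eq_conj (hφ _)]

theorem ev_st {φ : Multiplicative Γ →* ℂ} (hφ : ∀ k, ‖φ k‖ = 1) (P : AddMonoidAlgebra ℝ Γ) :
    ev φ (st P) = conj (ev φ P) := by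
  induction P using AddMonoidAlgebra.induction_linear with
  | zero => simp
  | add a b ha hb => rw [map_add, map_add, ha, hb, map_add, map_add]
  | single m r =>
    rw [st_single, ev_single, ev_single, map_mul, Complex.conj_ofReal, conj_unitary hφ]

/-- the pairing `∑ P_ν Q_ν` is the constant coefficient of `P Q*` -/
theorem pairing (P Q : AddMonoidAlgebra ℝ Γ) :
    (P * st Q).coeff 0 = P.coeff.sum fun ν r => r * Q.coeff ν := by
  classical
  induction P using AddMonoidAlgebra.induction_linear with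
  | zero => simp
  | add a b ha hb =>
    rw [add_mul, AddMonoidAlgebra.coeff_add, Finsupp.add_apply, ha, hb, AddMonoidAlgebra.coeff_add,
      Finsupp.sum_add_index']
    · simp
    · intros; ring
  | single m r =>
    rw [AddMonoidAlgebra.coeff_single_mul_apply, add_zero, st_coeff, AddMonoidAlgebra.coeff_single,
      Finsupp.sum_single_index (by simp)]

theorem ev_eq_sum (φ : Multiplicative Γ →* ℂ) (P : AddMonoidAlgebra ℝ Γ) :
    ev φ P = P.coeff.sum fun ν r => (r : ℂ) * φ (Multiplicative.ofAdd ν) := by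
  rw [ev, AddMonoidAlgebra.lift_apply]
  simp [Complex.real_smul]

/-- Cauchy-Schwarz -/
theorem norm_ev_sq_le {φ : Multiplicative Γ →* ℂ} (hφ : ∀ k, ‖φ k‖ = 1)
    (P : AddMonoidAlgebra ℝ Γ) :
    ‖ev φ P‖ ^ 2 ≤ P.coeff.support.card * (P * st P).coeff 0 := by
  have h1 : ‖ev φ P‖ ≤ ∑ ν ∈ P.coeff.support, |P.coeff ν| := by
    rw [ev_eq_sum, Finsupp.sum]
    refine (norm_sum_le _ _).trans (Finset.sum_le_sum fun ν _ => ?_)
    rw [norm_mul, hφ, mul_one, Complex.norm_real, Real.norm_eq_abs]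
  have h2 : (∑ ν ∈ P.coeff.support, |P.coeff ν|) ^ 2 ≤
      P.coeff.support.card * ∑ ν ∈ P.coeff.support, |P.coeff ν| ^ 2 :=
    sq_sum_le_card_mul_sum_sq
  have h3 : (P * st P).coeff 0 = ∑ ν ∈ P.coeff.support, |P.coeff ν| ^ 2 := by
    rw [pairing, Finsupp.sum]
    refine Finset.sum_congr rfl fun ν _ => ?_
    rw [sq_abs, sq]
  rw [h3]
  exact (pow_le_pow_left₀ (norm_nonneg _) h1 2).trans h2

open Classical in
theorem support_pow_subset (M : AddMonoidAlgebra ℝ Γ) (T : Finset Γ) (hT : M.coeff.support ⊆ T)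
    (N : ℕ) :
    (M ^ N).coeff.support ⊆
      (Fintype.piFinset fun _ : T => Finset.range (N + 1)).image
        fun n : T → ℕ => ∑ τ : T, (n τ) • (τ : Γ) := by
  induction N with
  | zero =>
    intro ν hν
    rw [pow_zero] at hν
    have h1 := AddMonoidAlgebra.support_coeff_one_subset hν
    rw [Finset.mem_zero] at h1
    rw [Finset.mem_image]
    refine ⟨fun _ => 0, ?_, ?_⟩
    · simp
    · rw [h1]; simp
  | succ N ih =>
    intro ν hν
    rw [pow_succ] at hν
    have h1 := AddMonoidAlgebra.support_coeff_mul_subset _ _ hν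
    obtain ⟨a, ha, b, hb, hab⟩ := Finset.mem_add.1 h1
    obtain ⟨n, hn, hna⟩ := Finset.mem_image.1 (ih ha)
    have hbT := hT hb
    rw [Finset.mem_image]
    refine ⟨fun τ => n τ + if τ = ⟨b, hbT⟩ then 1 else 0, ?_, ?_⟩
    · rw [Fintype.mem_piFinset] at hn ⊢
      intro τ
      have := hn τ
      rw [Finset.mem_range] at this ⊢
      split_ifs <;> omega
    · rw [← hab, ← hna]
      simp only [add_smul, Finset.sum_add_distrib]
      congr 1
      rw [Finset.sum_eq_single (⟨b, hbT⟩ : T)]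
      · simp
      · intro τ _ hτ
        simp [hτ]
      · intro h
        exact absurd (Finset.mem_univ _) h

theorem card_support_pow_le (M : AddMonoidAlgebra ℝ Γ) (T : Finset Γ)
    (hT : M.coeff.support ⊆ T) (N : ℕ) :
    (M ^ N).coeff.support.card ≤ (N + 1) ^ T.card := by
  classical
  refine (Finset.card_le_card (support_pow_subset M T hT N)).trans
    (Finset.card_image_le.trans (le_of_eq ?_))
  rw [Fintype.card_piFinset]
  simp

/-- if all the constant coefficients of `(M M*)^N` are at most `b^(2N)`, then `|M| ≤ b`. -/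
theorem norm_le_of_moments {φ : Multiplicative Γ →* ℂ} (hφ : ∀ k, ‖φ k‖ = 1)
    (M : AddMonoidAlgebra ℝ Γ) (b : ℝ) (hb : 0 ≤ b)
    (h : ∀ N : ℕ, 1 ≤ N → ((M * st M) ^ N).coeff 0 ≤ b ^ (2 * N)) : ‖ev φ M‖ ≤ b := by
  by_contra hcon
  push Not at hcon
  set k := M.coeff.support.card with hk
  have key : ∀ N : ℕ, 1 ≤ N → ‖ev φ M‖ ^ (2 * N) ≤ ((N : ℝ) + 1) ^ k * b ^ (2 * N) := by
    intro N hN
    have h1 := norm_ev_sq_le hφ (M ^ N)
    have h2 : (M ^ N * st (M ^ N)) = (M * st M) ^ N := by rw [map_pow, mul_pow]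
    rw [h2, map_pow, norm_pow, ← pow_mul, mul_comm N 2] at h1
    refine h1.trans ?_
    have h3 : ((M ^ N).coeff.support.card : ℝ) ≤ ((N : ℝ) + 1) ^ k := by
      exact_mod_cast card_support_pow_le M M.coeff.support (Finset.Subset.refl _) N
    have h4 : 0 ≤ ((M * st M) ^ N).coeff 0 := by
      rw [← h2, pairing, Finsupp.sum]
      exact Finset.sum_nonneg fun ν _ => mul_self_nonneg _
    exact mul_le_mul h3 (h N hN) h4 (by positivity)
  rcases hb.eq_or_lt with hb0 | hb0
  · rw [← hb0] at key hcon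
    have := key 1 le_rfl
    simp only [mul_one] at this
    have h5 : 0 < ‖ev φ M‖ ^ 2 := by positivity
    norm_num at this
    rw [this] at hcon
    simp at hcon
  · set r : ℝ := (‖ev φ M‖ / b) ^ 2 with hr
    have hr1 : 1 < r := by
      rw [hr]
      exact one_lt_pow₀ ((one_lt_div hb0).2 hcon) two_ne_zero
    have h1 := tendsto_pow_const_div_const_pow_of_one_lt k hr1
    have h2 : Tendsto (fun N : ℕ => 2 ^ k * ((N : ℝ) ^ k / r ^ N)) atTop (𝓝 (2 ^ k * 0)) :=
      h1.const_mul _
    rw [mul_zero] at h2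
    obtain ⟨N, hN1, hN2⟩ := ((h2.eventually_lt_const (by norm_num : (0 : ℝ) < 1)).and
      (Filter.eventually_ge_atTop 1)).exists
    have h3 := key N hN2
    have h4 : r ^ N ≤ ((N : ℝ) + 1) ^ k := by
      rw [hr, ← pow_mul, div_pow, div_le_iff₀ (by positivity)]
      exact h3
    have hNr : (1 : ℝ) ≤ N := by exact_mod_cast hN2
    have h5 : ((N : ℝ) + 1) ^ k ≤ 2 ^ k * (N : ℝ) ^ k := by
      rw [← mul_pow]
      exact pow_le_pow_left₀ (by positivity) (by linarith) k
    have h6 : 0 < r ^ N := by positivity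
    rw [← mul_div_assoc, div_lt_one h6] at hN1
    linarith


end Pool.Agent.H68T
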